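import Mathlib

namespace Pool.Agent.Results.MP_174dab_an.Chords

open Real Set

/-- the sine sum -/
noncomputable def g (n : ℕ) (x : ℝ) : ℝ := ∑ k ∈ Finset.Icc 1 n, sin (2 * π * k * x)

/-- the set of lengths of horizontal chords of `f` on the unit interval -/
def chordSet (f : ℝ → ℝ) : Set ℝ := {l | l ∈ Icc (0 : ℝ) 1 ∧ ∃ x ∈ Icc l 1, f (x - l) = f x}

lemma closed_form (n : ℕ) (x : ℝ) :
    2 * sin (π * x) * g n x = cos (π * x) - cos ((2 * n + 1) * (π * x)) := by
  induction n with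
  | zero => simp [g]
  | succ n ih =>
    have e : g (n + 1) x = g n x + sin (2 * π * ((n + 1 : ℕ) : ℝ) * x) := by
      unfold g
      rw [Finset.sum_Icc_succ_top (by omega)]
    rw [e, mul_add, ih]
    have h1 : (2 * (n : ℝ) + 1) * (π * x) = 2 * π * ((n + 1 : ℕ) : ℝ) * x - π * x := by
      push_cast; ring
    have h2 : (2 * ((n + 1 : ℕ) : ℝ) + 1) * (π * x) = 2 * π * ((n + 1 : ℕ) : ℝ) * x + π * x := by
      ring
    rw [h1, h2, cos_sub, cos_add]
    ring

lemma g_zero (n : ℕ) : g n 0 = 0 := by simp [g]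

lemma g_one (n : ℕ) : g n 1 = 0 := by
  unfold g
  refine Finset.sum_eq_zero fun k _ => ?_
  have : 2 * π * (k : ℝ) * 1 = ((2 * k : ℕ) : ℝ) * π := by push_cast; ring
  rw [this, sin_nat_mul_pi]

lemma g_cont (n : ℕ) : Continuous (g n) := by
  unfold g
  fun_prop

lemma amp (c η sa sb L : ℝ) (ha : 0 < sa) (hb : 0 < sb) (hL : 0 < sin L) (hη : cos L < cos η)
    (hlaw : sin L ^ 2 = sa ^ 2 + sb ^ 2 - 2 * sa * sb * cos L) :
    0 < sin L + cos (c + η) * sa - cos c * sb := by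
  rw [cos_add]
  have h1 := sin_sq_add_cos_sq c
  have h2 := sin_sq_add_cos_sq η
  have h3 : (cos c * (cos η * sa - sb) - sin c * (sin η * sa)) ^ 2 ≤
      (cos η * sa - sb) ^ 2 + (sin η * sa) ^ 2 := by
    have : (cos η * sa - sb) ^ 2 + (sin η * sa) ^ 2 =
        ((cos η * sa - sb) ^ 2 + (sin η * sa) ^ 2) * (sin c ^ 2 + cos c ^ 2) := by
      rw [h1, mul_one]
    nlinarith [sq_nonneg (sin c * (cos η * sa - sb) + cos c * (sin η * sa))]
  have h4 : (cos η * sa - sb) ^ 2 + (sin η * sa) ^ 2 = sa ^ 2 + sb ^ 2 - 2 * sa * sb * cos η := by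
    linear_combination sa ^ 2 * h2
  have h5 : (cos c * (cos η * sa - sb) - sin c * (sin η * sa)) ^ 2 < sin L ^ 2 := by
    have := mul_pos (mul_pos ha hb) (sub_pos.2 hη)
    nlinarith
  have h6 := (abs_lt_of_sq_lt_sq' h5 hL.le).1
  linarith

lemma no_chord (n k : ℕ) (hk : 1 ≤ k) (hkn : k ≤ n) (l : ℝ) (h1 : (k : ℝ) / (n + 1) < l)
    (h2 : l < (k : ℝ) / n) (x : ℝ) (hx : x ∈ Icc l 1) : g n (x - l) ≠ g n x := by
  intro h
  have hn : (0 : ℝ) < n := by exact_mod_cast lt_of_lt_of_le hk hkn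
  have hk' : (k : ℝ) ≤ n := by exact_mod_cast hkn
  have hk0 : (0 : ℝ) < k := by exact_mod_cast hk
  have hl0 : 0 < l := lt_trans (by positivity) h1
  have hl1 : l < 1 := lt_of_lt_of_le h2 ((div_le_one hn).2 hk')
  rw [div_lt_iff₀ (by positivity)] at h1
  rw [lt_div_iff₀ hn] at h2
  obtain ⟨η, hη⟩ : ∃ η : ℝ, η = (2 * n + 1) * (π * l) - k * (2 * π) := ⟨_, rfl⟩
  have hpi := pi_pos
  have hη1 : |η| < π * l := by
    rw [abs_lt, hη]
    constructor <;> nlinarith
  have hcos : cos (π * l) < cos η := by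
    rw [← cos_abs η]
    exact cos_lt_cos_of_nonneg_of_le_pi (abs_nonneg _) (by nlinarith) hη1
  have hL : 0 < sin (π * l) := sin_pos_of_pos_of_lt_pi (by positivity) (by nlinarith)
  have ea := closed_form n (x - l)
  have eb := closed_form n x
  have hshift : cos ((2 * n + 1) * (π * x)) = cos ((2 * n + 1) * (π * (x - l)) + η) := by
    have : (2 * n + 1) * (π * x) = ((2 * n + 1) * (π * (x - l)) + η) + k * (2 * π) := by
      rw [hη]; ring
    rw [this, cos_add_nat_mul_two_pi]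
  rcases hx.1.eq_or_lt with hxl | hxl
  · subst hxl
    rw [sub_self, g_zero] at h
    rw [← h, hshift, sub_self] at eb
    simp only [mul_zero, zero_add] at eb
    linarith
  rcases hx.2.eq_or_lt with hx1 | hx1
  · subst hx1
    rw [g_one] at h
    rw [h] at ea
    have e1 : cos (π * (1 - l)) = -cos (π * l) := by
      rw [mul_sub, mul_one, cos_pi_sub]
    have e2 : cos ((2 * n + 1) * (π * (1 - l))) = -cos η := by
      have : (2 * n + 1) * (π * (1 - l)) = (π - η) + ((n - k : ℕ) : ℝ) * (2 * π) := by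
        rw [hη, Nat.cast_sub hkn]; ring
      rw [this, cos_add_nat_mul_two_pi, cos_pi_sub]
    rw [e1, e2] at ea
    linarith
  have hsa : 0 < sin (π * (x - l)) :=
    sin_pos_of_pos_of_lt_pi (mul_pos hpi (by linarith)) (by nlinarith)
  have hsb : 0 < sin (π * x) := sin_pos_of_pos_of_lt_pi (mul_pos hpi (by linarith)) (by nlinarith)
  have hsub : π * l = π * x - π * (x - l) := by ring
  have p1 := sin_sq_add_cos_sq (π * x)
  have p2 := sin_sq_add_cos_sq (π * (x - l))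
  have hlaw : sin (π * l) ^ 2 = sin (π * (x - l)) ^ 2 + sin (π * x) ^ 2 -
      2 * sin (π * (x - l)) * sin (π * x) * cos (π * l) := by
    rw [hsub, sin_sub, cos_sub]
    linear_combination (sin (π * x) ^ 2) * p2 + (sin (π * (x - l)) ^ 2) * p1
  have key := amp ((2 * n + 1) * (π * (x - l))) η _ _ _ hsa hsb hL hcos hlaw
  rw [← hshift] at key
  have hs : sin (π * l) = sin (π * x) * cos (π * (x - l)) - cos (π * x) * sin (π * (x - l)) := by
    rw [hsub, sin_sub]
  rw [h] at ea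
  have : sin (π * l) + cos ((2 * n + 1) * (π * x)) * sin (π * (x - l)) -
      cos ((2 * n + 1) * (π * (x - l))) * sin (π * x) = 0 := by
    rw [hs]
    linear_combination (sin (π * (x - l))) * eb - (sin (π * x)) * ea
  linarith

lemma g_nonneg (n k : ℕ) (hn : 1 ≤ n) (hkn : k + 1 ≤ n) (x : ℝ) (h1 : (k : ℝ) / n ≤ x)
    (h2 : x ≤ ((k : ℝ) + 1) / (n + 1)) : 0 ≤ g n x := by
  have hn0 : (0 : ℝ) < n := by exact_mod_cast hn
  have hk' : (k : ℝ) + 1 ≤ n := by exact_mod_cast hkn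
  have hx0 : 0 ≤ x := le_trans (by positivity) h1
  rcases hx0.eq_or_lt with h0 | h0
  · rw [← h0, g_zero]
  rw [div_le_iff₀ hn0] at h1
  rw [le_div_iff₀ (by positivity)] at h2
  have hx1 : x < 1 := by nlinarith
  have hpi := pi_pos
  have hs : 0 < sin (π * x) := sin_pos_of_pos_of_lt_pi (by positivity) (by nlinarith)
  have e := closed_form n x
  have e1 : cos ((2 * n + 1) * (π * x)) ≤ cos (π * x) := by
    obtain ⟨t, ht⟩ : ∃ t : ℝ, t = (2 * n + 1) * (π * x) - k * (2 * π) := ⟨_, rfl⟩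
    have : (2 * n + 1) * (π * x) = t + k * (2 * π) := by rw [ht]; ring
    rw [this, cos_add_nat_mul_two_pi]
    have t1 : π * x ≤ t := by rw [ht]; nlinarith
    have t2 : t ≤ 2 * π - π * x := by rw [ht]; nlinarith
    rcases le_total t π with h | h
    · exact cos_le_cos_of_nonneg_of_le_pi (by positivity) h t1
    · rw [← cos_two_pi_sub t]
      exact cos_le_cos_of_nonneg_of_le_pi (by positivity) (by linarith) (by linarith)
  by_contra hneg
  push Not at hneg
  nlinarith [mul_pos hs (neg_pos.2 hneg)]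

lemma g_root (n k : ℕ) (hkn : k + 1 ≤ n) : g n (((k : ℝ) + 1) / (n + 1)) = 0 := by
  obtain ⟨x, hx⟩ : ∃ x : ℝ, x = ((k : ℝ) + 1) / (n + 1) := ⟨_, rfl⟩
  have hk' : (k : ℝ) + 1 ≤ n := by exact_mod_cast hkn
  rw [← hx]
  have hx' : x * (n + 1) = k + 1 := by rw [hx]; field_simp
  have h0 : 0 < x := by rw [hx]; positivity
  have h1 : x < 1 := by rw [hx, div_lt_one (by positivity)]; linarith
  have hpi := pi_pos
  have hs : 0 < sin (π * x) := sin_pos_of_pos_of_lt_pi (by positivity) (by nlinarith)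
  have e := closed_form n x
  have : (2 * n + 1) * (π * x) = ((k + 1 : ℕ) : ℝ) * (2 * π) - π * x := by
    push_cast
    linear_combination (2 * π) * hx'
  rw [this, cos_nat_mul_two_pi_sub, sub_self] at e
  exact (mul_eq_zero.1 e).resolve_left (by positivity)

lemma has_chord (n k : ℕ) (hn : 1 ≤ n) (hkn : k + 1 ≤ n) (l : ℝ) (h1 : (k : ℝ) / n ≤ l)
    (h2 : l ≤ ((k : ℝ) + 1) / (n + 1)) : ∃ x ∈ Icc l 1, g n (x - l) = g n x := by
  have hn0 : (0 : ℝ) < n := by exact_mod_cast hn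
  have hk' : (k : ℝ) + 1 ≤ n := by exact_mod_cast hkn
  obtain ⟨y, hy⟩ : ∃ y : ℝ, y = ((k : ℝ) + 1) / (n + 1) := ⟨_, rfl⟩
  have hy1 : y ≤ 1 := by rw [hy, div_le_one (by positivity)]; linarith
  have hc : ContinuousOn (fun x => g n (x - l) - g n x) (Icc l y) :=
    (((g_cont n).comp (continuous_id.sub continuous_const)).sub (g_cont n)).continuousOn
  have a1 : g n (l - l) - g n l ≤ 0 := by
    rw [sub_self, g_zero]
    linarith [g_nonneg n k hn hkn l h1 h2]
  have a2 : 0 ≤ g n (y - l) - g n y := by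
    have : g n y = 0 := by rw [hy]; exact g_root n k hkn
    rw [this, sub_zero]
    refine g_nonneg n 0 hn hn _ (by rw [hy]; simpa using h2) ?_
    have : (k : ℝ) / (n + 1) ≤ k / n := by gcongr; linarith
    have e : y = (k : ℝ) / (n + 1) + 1 / (n + 1) := by rw [hy]; ring
    push_cast
    rw [zero_add]
    linarith
  obtain ⟨x, hx, hx0⟩ := intermediate_value_Icc (by rw [hy]; exact h2) hc ⟨a1, a2⟩
  exact ⟨x, ⟨hx.1, hx.2.trans hy1⟩, by simpa [sub_eq_zero] using hx0⟩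

theorem result (n : ℕ) (hn : 1 ≤ n) :
    chordSet (g n) =
      Icc (0 : ℝ) 1 \ ⋃ k ∈ Finset.Icc 1 n, Ioo ((k : ℝ) / ((n : ℝ) + 1)) ((k : ℝ) / (n : ℝ)) := by
  have hn0 : (0 : ℝ) < n := by exact_mod_cast hn
  ext l
  simp only [chordSet, mem_ofPred_eq, mem_sdiff, mem_iUnion, Finset.mem_Icc, not_exists]
  refine and_congr_right fun hl => ⟨?_, fun h => ?_⟩
  · rintro ⟨x, hx, hg⟩ k hk hm
    exact no_chord n k hk.1 hk.2 l hm.1 hm.2 x hx hg
  · rcases hl.2.eq_or_lt with h1 | h1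
    · exact ⟨1, ⟨hl.2, le_rfl⟩, by rw [h1, sub_self, g_zero, g_one]⟩
    obtain ⟨k, hk⟩ : ∃ k : ℕ, k = ⌊l * n⌋₊ := ⟨_, rfl⟩
    have hln : 0 ≤ l * n := mul_nonneg hl.1 hn0.le
    have k1 : (k : ℝ) ≤ l * n := by rw [hk]; exact Nat.floor_le hln
    have k2 : l * n < k + 1 := by rw [hk]; exact Nat.lt_floor_add_one _
    have k3 : k + 1 ≤ n := by
      have : (k : ℝ) < n := by nlinarith
      exact_mod_cast this
    refine has_chord n k hn k3 l ((div_le_iff₀ hn0).2 k1) ?_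
    by_contra hc
    push Not at hc
    refine h (k + 1) ⟨by omega, k3⟩ ⟨by push_cast; exact hc, ?_⟩
    push_cast
    rw [lt_div_iff₀ hn0]
    exact k2

end Pool.Agent.Results.MP_174dab_an.Chords
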